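import Pool.Agent.H15.HLU.Targets

/-!
Board hlu_modules (MP_3713ea_co), row SOL: the number of solutions of the equations of a lift.
-/

set_option autoImplicit false

open Pool.Agent.H51.Homog Pool.Agent.H22.HSQ Pool.Agent.H15.HLS Pool.Agent.H15.HLU

namespace Pool.Agent.H97.HLU

private lemma bb_a {α : Type} {N : ℕ} {a c a₁ c₁ k : α} (h : k = c ∨ k = c₁) :
    (bb a c a₁ c₁ a k : ZMod N) = 2 := by
  unfold bb
  rw [if_pos h, if_pos rfl]

private lemma bb_a1 {α : Type} {N : ℕ} {a c a₁ c₁ k : α} (ha : a₁ ≠ a) (h : k = c ∨ k = c₁) :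
    (bb a c a₁ c₁ a₁ k : ZMod N) = -2 := by
  unfold bb
  rw [if_pos h, if_neg ha, if_pos rfl]

private lemma bb_col {α : Type} {N : ℕ} {a c a₁ c₁ r k : α} (h : ¬ (k = c ∨ k = c₁)) :
    (bb a c a₁ c₁ r k : ZMod N) = 1 := by
  unfold bb
  rw [if_neg h]

private lemma bb_row {α : Type} {N : ℕ} {a c a₁ c₁ r k : α} (h : r ≠ a) (h1 : r ≠ a₁) :
    (bb a c a₁ c₁ r k : ZMod N) = 1 := by
  unfold bb
  by_cases h2 : k = c ∨ k = c₁
  · rw [if_pos h2, if_neg h, if_neg h1]
  · rw [if_neg h2]

/-- the same left sides -/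
private lemma count_same {N : ℕ} (hN : 0 < N) (s t x1 x2 F1 F2 F3 F4 : ZMod N)
    (hF : F2 - F1 = F4 - F3) :
    {p : ZMod N × ZMod N | p.1 + x1 * p.2 + F1 = s + x2 * t + F2 ∧
      p.1 + -x2 * t + F3 = s + -x1 * p.2 + F4}.ncard = N := by
  have : NeZero N := ⟨hN.ne'⟩
  have h1 : {p : ZMod N × ZMod N | p.1 + x1 * p.2 + F1 = s + x2 * t + F2 ∧
      p.1 + -x2 * t + F3 = s + -x1 * p.2 + F4} =
      (fun z : ZMod N => (s + x2 * t + F2 - F1 - x1 * z, z)) '' Set.univ := by
    ext ⟨x, z⟩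
    simp only [Set.mem_setOf_eq, Set.image_univ, Set.mem_range, Prod.mk.injEq]
    constructor
    · rintro ⟨h, -⟩
      exact ⟨z, by linear_combination -h, rfl⟩
    · rintro ⟨z', h, h'⟩
      subst h'
      exact ⟨by linear_combination -h, by linear_combination -h + hF⟩
  have h2 : Function.Injective (fun z : ZMod N => (s + x2 * t + F2 - F1 - x1 * z, z)) :=
    fun z z' h => congrArg Prod.snd h
  rw [h1, Set.ncard_image_of_injective _ h2, Set.ncard_univ, Nat.card_zmod]

/-- different constants: no solution -/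
private lemma count_none {N : ℕ} (s t x1 x2 F1 F2 F3 F4 : ZMod N)
    (hF : F2 - F1 ≠ F4 - F3) :
    {p : ZMod N × ZMod N | p.1 + x1 * p.2 + F1 = s + x2 * t + F2 ∧
      p.1 + -x2 * t + F3 = s + -x1 * p.2 + F4}.ncard = 0 := by
  have h1 : {p : ZMod N × ZMod N | p.1 + x1 * p.2 + F1 = s + x2 * t + F2 ∧
      p.1 + -x2 * t + F3 = s + -x1 * p.2 + F4} = ∅ := by
    ext ⟨x, z⟩
    simp only [Set.mem_setOf_eq, Set.mem_empty_iff_false, iff_false, not_and]
    intro h h'
    exact hF (by linear_combination h' - h)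
  rw [h1, Set.ncard_empty]

/-- a unit: one solution -/
private lemma count_unit {N : ℕ} (s t x1 x2 x3 x4 F1 F2 F3 F4 : ZMod N)
    (hu : IsUnit (x1 + x4)) :
    {p : ZMod N × ZMod N | p.1 + x1 * p.2 + F1 = s + x2 * t + F2 ∧
      p.1 + x3 * t + F3 = s + x4 * p.2 + F4}.ncard = 1 := by
  obtain ⟨u, hu⟩ := hu
  have hu1 : (↑u⁻¹ : ZMod N) * (x1 + x4) = 1 := by rw [← hu]; exact u.inv_mul
  set v : ZMod N := ↑u⁻¹ with hv
  have h1 : {p : ZMod N × ZMod N | p.1 + x1 * p.2 + F1 = s + x2 * t + F2 ∧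
      p.1 + x3 * t + F3 = s + x4 * p.2 + F4} =
      {(s + x2 * t + F2 - F1 - x1 * (v * ((x2 + x3) * t + F2 - F4 - F1 + F3)),
        v * ((x2 + x3) * t + F2 - F4 - F1 + F3))} := by
    ext ⟨x, z⟩
    simp only [Set.mem_setOf_eq, Set.mem_singleton_iff, Prod.mk.injEq]
    constructor
    · rintro ⟨h, h'⟩
      have hz : z = v * ((x2 + x3) * t + F2 - F4 - F1 + F3) := by
        linear_combination -z * hu1 + v * (h - h')
      refine ⟨?_, hz⟩
      rw [← hz]
      linear_combination h
    · rintro ⟨h, h'⟩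
      rw [← h'] at h
      have hz : (x1 + x4) * z = (x2 + x3) * t + F2 - F4 - F1 + F3 := by
        rw [h']
        linear_combination ((x2 + x3) * t + F2 - F4 - F1 + F3) * hu1
      exact ⟨by linear_combination h, by linear_combination h - hz⟩
  rw [h1, Set.ncard_singleton]

theorem pf_SOL : T_SOL := by
  classical
  intro α L hL a c a₁ c₁ ha hc hL1 hL2 r k r' k' hr hk hLk1 hLk2 N kill hN hN6 hkill s t
  by_cases hS : Same a c a₁ c₁ r k r' k'
  · unfold wt
    rw [if_pos hS]
    obtain ⟨hrow, hcol⟩ := hS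
    have hk0 : k = c ∨ k = c₁ := hcol.imp And.left And.left
    have hk1 : k' = c ∨ k' = c₁ := by
      rcases hcol with ⟨-, h⟩ | ⟨-, h⟩
      · exact Or.inr h
      · exact Or.inl h
    have e4 : (bb a c a₁ c₁ r k' : ZMod N) = -bb a c a₁ c₁ r' k' := by
      rcases hrow with ⟨h, h'⟩ | ⟨h, h'⟩
      · rw [h, h', bb_a hk1, bb_a1 ha hk1, neg_neg]
      · rw [h, h', bb_a hk1, bb_a1 ha hk1]
    have e3 : (bb a c a₁ c₁ r' k : ZMod N) = -bb a c a₁ c₁ r k := by
      rcases hrow with ⟨h, h'⟩ | ⟨h, h'⟩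
      · rw [h, h', bb_a hk0, bb_a1 ha hk0]
      · rw [h, h', bb_a hk0, bb_a1 ha hk0, neg_neg]
    rw [e3, e4]
    cases kill with
    | false =>
      rw [if_neg (by decide)]
      refine count_same hN s t _ _ _ _ _ _ ?_
      unfold ff
      simp
    | true =>
      rw [if_pos rfl]
      have : Fact (1 < N) := ⟨hkill rfl⟩
      refine count_none s t _ _ _ _ _ _ ?_
      have h01 : (1 : ZMod N) ≠ 0 := one_ne_zero
      unfold ff
      rcases hrow with ⟨h, h'⟩ | ⟨h, h'⟩ <;> rcases hcol with ⟨g, g'⟩ | ⟨g, g'⟩ <;>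
        simp [h, h', g, g', ha, hc, h01, h01.symm]
  · unfold wt
    rw [if_neg hS]
    refine count_unit s t _ _ _ _ _ _ _ _ ?_
    have h2 : IsUnit (2 : ZMod N) := by
      have h3 : IsUnit ((2 : ℕ) : ZMod N) := by
        rw [ZMod.isUnit_iff_coprime]
        have h4 : Nat.Coprime N (2 * 3) := hN6
        exact (Nat.Coprime.coprime_mul_right_right h4).symm
      simpa using h3
    have h3 : IsUnit (3 : ZMod N) := by
      have h3 : IsUnit ((3 : ℕ) : ZMod N) := by
        rw [ZMod.isUnit_iff_coprime]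
        have h4 : Nat.Coprime N (2 * 3) := hN6
        exact (Nat.Coprime.coprime_mul_left_right h4).symm
      simpa using h3
    have hm : IsUnit (-1 : ZMod N) := isUnit_one.neg
    by_cases hk1 : k' = c ∨ k' = c₁
    swap
    · rw [bb_col hk1, bb_col hk1]
      have h5 : (1 : ZMod N) + 1 = 2 := by norm_num
      rw [h5]
      exact h2
    by_cases hra : r = a
    · subst hra
      rw [bb_a hk1]
      by_cases hra' : r' = a₁
      · exfalso
        subst hra'
        apply hS
        refine ⟨Or.inl ⟨rfl, rfl⟩, ?_⟩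
        rcases hk1 with h | h
        · right
          refine ⟨(hL.1 r).injective ?_, h⟩
          rw [← hLk1, h, hL2]
        · left
          refine ⟨(hL.1 r).injective ?_, h⟩
          rw [← hLk1, h, hL1]
      · rw [bb_row hr hra']
        have h5 : (1 : ZMod N) + 2 = 3 := by norm_num
        rw [h5]
        exact h3
    by_cases hra1 : r = a₁
    · subst hra1
      rw [bb_a1 ha hk1]
      by_cases hra' : r' = a
      · exfalso
        subst hra'
        apply hS
        refine ⟨Or.inr ⟨rfl, rfl⟩, ?_⟩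
        rcases hk1 with h | h
        · right
          refine ⟨(hL.1 r).injective ?_, h⟩
          rw [← hLk1, h, hL1]
        · left
          refine ⟨(hL.1 r).injective ?_, h⟩
          rw [← hLk1, h, hL2]
      · rw [bb_row hra' hr]
        have h5 : (1 : ZMod N) + -2 = -1 := by norm_num
        rw [h5]
        exact hm
    rw [bb_row hra hra1]
    by_cases hra' : r' = a
    · rw [hra', bb_a hk1]
      have h5 : (2 : ZMod N) + 1 = 3 := by norm_num
      rw [h5]
      exact h3
    by_cases hra1' : r' = a₁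
    · rw [hra1', bb_a1 ha hk1]
      have h5 : (-2 : ZMod N) + 1 = -1 := by norm_num
      rw [h5]
      exact hm
    rw [bb_row hra' hra1']
    have h5 : (1 : ZMod N) + 1 = 2 := by norm_num
    rw [h5]
    exact h2

end Pool.Agent.H97.HLU
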